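import Pool.Agent.Helper23.PL.SpecB2

/-!
# PL-12: the sum over the scales
-/

set_option autoImplicit false

open Set
open Pool.Agent.Helper83.OP Pool.Agent.Helper93.HH Pool.Agent.Helper95.HH
open Pool.Agent.Helper23.PL

namespace Pool.Agent.Helper72.PL

/-! ## numbers -/

private theorem numeric (A s K0 K1 K2 M u nb X Y a l Z p q c : ℝ) (hA : 1 ≤ A) (hs : 1 ≤ s)
    (hM : 0 < M) (hu0 : 0 ≤ u) (hl0 : 0 ≤ l) (ha0 : 0 ≤ a)
    (hu : K0 * u ≤ M) (hnb : nb ≤ 2 * M)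
    (hc : 3000 * A ^ 2 ≤ c) (h0 : c * s ^ 3 ≤ K0) (h2 : c * s ^ 3 ≤ K2)
    (h1 : c * s ^ 3 * K0 * K2 ≤ K1)
    (hX : K2 * K1 * X ≤ (s + 1) * (A * (K2 * (K0 * M + K1 * u) + K1 * nb)))
    (hY : K2 * K1 * Y ≤ (s + 11) * (A * (K2 * (K0 * K2 * M + K1 * u) + K1 * nb)))
    (ha : a ≤ X + Y) (hl : l ≤ (s + 12) * a)
    (hZ : K2 * Z ≤ (s + 1) * (A * (K2 * (u + l) + nb))) (hp : p ≤ l + Z)
    (hq : K1 * q ≤ s * (A * (M + K1 * u))) (hMpq : M = p + 2 * q) : False := by
  have hs3 : 1 ≤ s ^ 3 := one_le_pow₀ hs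
  have hA2 : 1 ≤ A ^ 2 := one_le_pow₀ hA
  have hc1 : 3000 ≤ c := by nlinarith
  have hcs : 1 ≤ c * s ^ 3 := by nlinarith
  have hcs0 : 0 < c * s ^ 3 := by linarith
  obtain ⟨δ, hδ⟩ : ∃ δ, δ = (c * s ^ 3)⁻¹ := ⟨_, rfl⟩
  have hδ0 : 0 < δ := by rw [hδ]; positivity
  have hδ1 : δ * (c * s ^ 3) = 1 := by rw [hδ]; exact inv_mul_cancel₀ hcs0.ne'
  have hK0 : 0 < K0 := by linarith
  have hK2 : 0 < K2 := by linarith
  have hK2' : 1 ≤ K2 := by linarith
  have hK0' : 1 ≤ K0 := by linarith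
  have hK1 : 0 < K1 := by
    have : 0 < c * s ^ 3 * K0 * K2 := by positivity
    linarith
  -- consequences
  have e2 : 1 ≤ δ * K2 := by
    rw [← hδ1]
    exact mul_le_mul_of_nonneg_left h2 hδ0.le
  have e0 : 1 ≤ δ * K0 := by
    rw [← hδ1]
    exact mul_le_mul_of_nonneg_left h0 hδ0.le
  have e1 : K0 * K2 ≤ δ * K1 := by
    have := mul_le_mul_of_nonneg_left h1 hδ0.le
    calc K0 * K2 = (δ * (c * s ^ 3)) * (K0 * K2) := by rw [hδ1, one_mul]
      _ = δ * (c * s ^ 3 * K0 * K2) := by ring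
      _ ≤ _ := this
  have e1' : 1 ≤ δ * K1 := by
    have : 1 ≤ K0 * K2 := by nlinarith
    linarith
  have eu : u ≤ δ * M := by
    calc u = 1 * u := (one_mul u).symm
      _ ≤ (δ * K0) * u := mul_le_mul_of_nonneg_right e0 hu0
      _ = δ * (K0 * u) := by ring
      _ ≤ δ * M := mul_le_mul_of_nonneg_left hu hδ0.le
  have enb : nb ≤ 2 * (δ * M) * K2 := by
    have : 2 * M ≤ 2 * (δ * M) * K2 := by
      have := mul_le_mul_of_nonneg_left e2 (by linarith : (0 : ℝ) ≤ 2 * M)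
      linarith
    linarith
  have hA0 : 0 < A := by linarith
  have hδM : 0 < δ * M := by positivity
  have eX : X ≤ 8 * s * A * (δ * M) := by
    have r1 : K2 * (K0 * M + K1 * u) + K1 * nb ≤ K2 * K1 * (4 * (δ * M)) := by
      have q1 : K2 * (K0 * M) ≤ K2 * K1 * (δ * M) := by
        have : K0 * K2 * M ≤ δ * K1 * M := mul_le_mul_of_nonneg_right e1 hM.le
        have h5 : δ * K1 * M ≤ K2 * (δ * K1 * M) := by
          have : 0 ≤ δ * K1 * M := by positivity
          nlinarith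
        calc K2 * (K0 * M) = K0 * K2 * M := by ring
          _ ≤ δ * K1 * M := this
          _ ≤ K2 * (δ * K1 * M) := h5
          _ = _ := by ring
      have q2 : K2 * (K1 * u) ≤ K2 * K1 * (δ * M) := by
        rw [← mul_assoc]
        exact mul_le_mul_of_nonneg_left eu (by positivity)
      have q3 : K1 * nb ≤ K1 * (2 * (δ * M) * K2) := mul_le_mul_of_nonneg_left enb hK1.le
      calc K2 * (K0 * M + K1 * u) + K1 * nb = K2 * (K0 * M) + K2 * (K1 * u) + K1 * nb := by ring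
        _ ≤ K2 * K1 * (δ * M) + K2 * K1 * (δ * M) + K1 * (2 * (δ * M) * K2) := by linarith
        _ = _ := by ring
    have r2 : K2 * K1 * X ≤ K2 * K1 * (8 * s * A * (δ * M)) := by
      calc K2 * K1 * X ≤ (s + 1) * (A * (K2 * (K0 * M + K1 * u) + K1 * nb)) := hX
        _ ≤ (s + 1) * (A * (K2 * K1 * (4 * (δ * M)))) := by
          apply mul_le_mul_of_nonneg_left _ (by linarith)
          exact mul_le_mul_of_nonneg_left r1 hA0.le
        _ ≤ (2 * s) * (A * (K2 * K1 * (4 * (δ * M)))) := by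
          apply mul_le_mul_of_nonneg_right (by linarith) (by positivity)
        _ = _ := by ring
    exact le_of_mul_le_mul_left r2 (by positivity)
  have eY : Y ≤ 48 * s * A * (δ * M) := by
    have r1 : K2 * (K0 * K2 * M + K1 * u) + K1 * nb ≤ K2 * K1 * (4 * (δ * M)) := by
      have q1 : K2 * (K0 * K2 * M) ≤ K2 * K1 * (δ * M) := by
        have : K0 * K2 * M ≤ δ * K1 * M := mul_le_mul_of_nonneg_right e1 hM.le
        calc K2 * (K0 * K2 * M) ≤ K2 * (δ * K1 * M) := mul_le_mul_of_nonneg_left this hK2.le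
          _ = _ := by ring
      have q2 : K2 * (K1 * u) ≤ K2 * K1 * (δ * M) := by
        rw [← mul_assoc]
        exact mul_le_mul_of_nonneg_left eu (by positivity)
      have q3 : K1 * nb ≤ K1 * (2 * (δ * M) * K2) := mul_le_mul_of_nonneg_left enb hK1.le
      calc K2 * (K0 * K2 * M + K1 * u) + K1 * nb
          = K2 * (K0 * K2 * M) + K2 * (K1 * u) + K1 * nb := by ring
        _ ≤ K2 * K1 * (δ * M) + K2 * K1 * (δ * M) + K1 * (2 * (δ * M) * K2) := by linarith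
        _ = _ := by ring
    have r2 : K2 * K1 * Y ≤ K2 * K1 * (48 * s * A * (δ * M)) := by
      calc K2 * K1 * Y ≤ (s + 11) * (A * (K2 * (K0 * K2 * M + K1 * u) + K1 * nb)) := hY
        _ ≤ (s + 11) * (A * (K2 * K1 * (4 * (δ * M)))) := by
          apply mul_le_mul_of_nonneg_left _ (by linarith)
          exact mul_le_mul_of_nonneg_left r1 hA0.le
        _ ≤ (12 * s) * (A * (K2 * K1 * (4 * (δ * M)))) := by
          apply mul_le_mul_of_nonneg_right (by linarith) (by positivity)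
        _ = _ := by ring
    exact le_of_mul_le_mul_left r2 (by positivity)
  have ea : a ≤ 56 * s * A * (δ * M) := by
    calc a ≤ X + Y := ha
      _ ≤ 8 * s * A * (δ * M) + 48 * s * A * (δ * M) := add_le_add eX eY
      _ = _ := by ring
  have el : l ≤ 728 * s ^ 2 * A * (δ * M) := by
    calc l ≤ (s + 12) * a := hl
      _ ≤ (13 * s) * a := mul_le_mul_of_nonneg_right (by linarith) ha0
      _ ≤ (13 * s) * (56 * s * A * (δ * M)) := mul_le_mul_of_nonneg_left ea (by linarith)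
      _ = _ := by ring
  have eZ : Z ≤ 2 * s * A * (3 * (δ * M) + l) := by
    have r1 : K2 * (u + l) + nb ≤ K2 * (3 * (δ * M) + l) := by
      have q1 : K2 * u ≤ K2 * (δ * M) := mul_le_mul_of_nonneg_left eu hK2.le
      calc K2 * (u + l) + nb = K2 * u + K2 * l + nb := by ring
        _ ≤ K2 * (δ * M) + K2 * l + 2 * (δ * M) * K2 := by linarith
        _ = _ := by ring
    have r2 : K2 * Z ≤ K2 * (2 * s * A * (3 * (δ * M) + l)) := by
      calc K2 * Z ≤ (s + 1) * (A * (K2 * (u + l) + nb)) := hZ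
        _ ≤ (s + 1) * (A * (K2 * (3 * (δ * M) + l))) := by
          apply mul_le_mul_of_nonneg_left _ (by linarith)
          exact mul_le_mul_of_nonneg_left r1 hA0.le
        _ ≤ (2 * s) * (A * (K2 * (3 * (δ * M) + l))) := by
          apply mul_le_mul_of_nonneg_right (by linarith) (by positivity)
        _ = _ := by ring
    exact le_of_mul_le_mul_left r2 hK2
  have eq : q ≤ 2 * s * A * (δ * M) := by
    have r2 : K1 * q ≤ K1 * (2 * s * A * (δ * M)) := by
      have q1 : M ≤ K1 * (δ * M) := by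
        have := mul_le_mul_of_nonneg_right e1' hM.le
        linarith
      have q2 : K1 * u ≤ K1 * (δ * M) := mul_le_mul_of_nonneg_left eu hK1.le
      calc K1 * q ≤ s * (A * (M + K1 * u)) := hq
        _ ≤ s * (A * (K1 * (δ * M) + K1 * (δ * M))) := by
          apply mul_le_mul_of_nonneg_left _ (by linarith)
          exact mul_le_mul_of_nonneg_left (by linarith) hA0.le
        _ = _ := by ring
    exact le_of_mul_le_mul_left r2 hK1
  -- the sum
  have hsA : 1 ≤ s * A := by nlinarith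
  have hsA0 : 0 < s * A := by linarith
  have f1 : p ≤ 3 * (s * A) * l + 6 * (s * A) * (δ * M) := by
    calc p ≤ l + Z := hp
      _ ≤ l + 2 * s * A * (3 * (δ * M) + l) := by linarith
      _ = 1 * l + 2 * (s * A) * l + 6 * (s * A) * (δ * M) := by ring
      _ ≤ (s * A) * l + 2 * (s * A) * l + 6 * (s * A) * (δ * M) := by
        have := mul_le_mul_of_nonneg_right hsA hl0
        linarith
      _ = _ := by ring
  have f2 : 3 * (s * A) * l ≤ 2184 * (s ^ 3 * A ^ 2) * (δ * M) := by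
    calc 3 * (s * A) * l ≤ 3 * (s * A) * (728 * s ^ 2 * A * (δ * M)) :=
          mul_le_mul_of_nonneg_left el (by positivity)
      _ = _ := by ring
  have f3 : s * A * (δ * M) ≤ s ^ 3 * A ^ 2 * (δ * M) := by
    apply mul_le_mul_of_nonneg_right _ hδM.le
    have g1 : s ≤ s ^ 3 := le_self_pow₀ hs (by norm_num)
    have g2 : A ≤ A ^ 2 := le_self_pow₀ hA (by norm_num)
    exact mul_le_mul g1 g2 hA0.le (by positivity)
  have f4 : M ≤ 2194 * (s ^ 3 * A ^ 2 * (δ * M)) := by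
    have : 2 * q ≤ 4 * (s * A * (δ * M)) := by linarith
    have h6 : 6 * (s * A) * (δ * M) = 6 * (s * A * (δ * M)) := by ring
    have h7 : 2184 * (s ^ 3 * A ^ 2) * (δ * M) = 2184 * (s ^ 3 * A ^ 2 * (δ * M)) := by ring
    rw [h6] at f1
    rw [h7] at f2
    linarith
  have f5 : s ^ 3 * A ^ 2 * (δ * M) * 3000 ≤ M := by
    have g1 : 3000 * A ^ 2 * (s ^ 3 * δ * M) ≤ c * (s ^ 3 * δ * M) :=
      mul_le_mul_of_nonneg_right hc (by positivity)
    have g2 : c * (s ^ 3 * δ * M) = δ * (c * s ^ 3) * M := by ring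
    rw [g2, hδ1, one_mul] at g1
    calc s ^ 3 * A ^ 2 * (δ * M) * 3000 = 3000 * A ^ 2 * (s ^ 3 * δ * M) := by ring
      _ ≤ M := g1
  have f6 : 0 < s ^ 3 * A ^ 2 * (δ * M) := by positivity
  linarith

/-! ## counting -/

private theorem ncard_le_sum {P : Type} [Finite P] (S : Set P) (f : P → ℕ) (m : ℕ)
    (h : ∀ p ∈ S, f p < m) : S.ncard ≤ ∑ j ∈ Finset.range m, {p | p ∈ S ∧ f p = j}.ncard := by
  classical
  have := Fintype.ofFinite P
  rw [Set.ncard_eq_toFinset_card' S,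
    Finset.card_eq_sum_card_fiberwise (f := f) (t := Finset.range m)
      (fun p hp => by
        have hp' : p ∈ S := by simpa using hp
        simpa using h p hp')]
  refine Finset.sum_le_sum fun j _ => ?_
  rw [Set.ncard_eq_toFinset_card']
  refine Finset.card_le_card fun p hp => ?_
  rw [Finset.mem_filter, Set.mem_toFinset] at hp
  rw [Set.mem_toFinset]
  exact hp

private theorem card_sum {V S : Type} [Finite S] (Us : Finset V) (f : S → V)
    (h : ∀ s, f s ∈ Us) : ∑ a ∈ Us, {s | f s = a}.ncard = Nat.card S := by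
  classical
  have := Fintype.ofFinite S
  rw [Nat.card_eq_fintype_card, ← Finset.card_univ,
    Finset.card_eq_sum_card_fiberwise (f := f) (s := Finset.univ) (t := Us) (fun s _ => h s)]
  refine Finset.sum_congr rfl fun a _ => ?_
  rw [Set.ncard_eq_toFinset_card']
  congr 1
  ext s
  simp

private theorem card_split {P : Type} [Finite P] (R : P → Prop) :
    Nat.card P ≤ {p | R p}.ncard + {p | ¬ R p}.ncard := by
  rw [← Set.ncard_univ]
  have : (Set.univ : Set P) ⊆ {p | R p} ∪ {p | ¬ R p} := fun p _ => by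
    by_cases h : R p
    · exact Or.inl h
    · exact Or.inr h
  exact (Set.ncard_le_ncard this (Set.toFinite _)).trans (Set.ncard_union_le _ _)

private theorem pow_bound {n s : ℕ} (h : Nat.log 2 n + 1 ≤ s) : 10 ^ (8 * s) * n < 11 ^ (8 * s) := by
  have h1 : n < 2 ^ s :=
    lt_of_lt_of_le (Nat.lt_pow_succ_log_self (by norm_num) n)
      (Nat.pow_le_pow_right (by norm_num) h)
  calc 10 ^ (8 * s) * n < 10 ^ (8 * s) * 2 ^ s :=
        Nat.mul_lt_mul_of_pos_left h1 (by positivity)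
    _ = (10 ^ 8 * 2) ^ s := by rw [mul_pow, pow_mul]
    _ ≤ (11 ^ 8) ^ s := Nat.pow_le_pow_left (by norm_num) s
    _ = 11 ^ (8 * s) := by rw [pow_mul]

/-- **PL-12.** -/
theorem count_PL : ∃ c : ℕ, ∀ (V P Q : Type) [Finite V] [Finite P] [Finite Q] (D : HD V P Q)
    (H : SimpleGraph V) (e0 : Sym2 V) (X : Sym2 V → Sym2 V → Prop) (k k1 k2 s : ℕ), D.Ok → GOk D →
    D.U.Nonempty → D.Dr H e0 X → D.L ≤ Nat.card V → Nat.log 2 (Nat.card V) + 1 ≤ s →
    c * s ^ 3 ≤ D.Kh * D.r → c * s ^ 3 ≤ k2 → c * s ^ 3 * (D.Kh * D.r) * (k2 + 1) ≤ k1 →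
    c * s * (k1 + 1) ≤ k → ¬ Bad D k k2 := by
  classical
  obtain ⟨A1, hCC⟩ := CC
  obtain ⟨A2, hCD⟩ := CD
  obtain ⟨A3, hSP⟩ := SP
  obtain ⟨A4, hHQ⟩ := HQ
  obtain ⟨A, hA⟩ : ∃ A, A = A1 + A2 + A3 + A4 + 1 := ⟨_, rfl⟩
  have hA1 : A1 ≤ A := by omega
  have hA2 : A2 ≤ A := by omega
  have hA3 : A3 ≤ A := by omega
  have hA4 : A4 ≤ A := by omega
  have hApos : 1 ≤ A := by omega
  refine ⟨10 ^ 8 * A ^ 2, ?_⟩
  intro V P Q _ _ _ D H e0 X k k1 k2 s hD hG hU hDr hL hs h0 h2 h1 hk hB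
  have := Fintype.ofFinite V
  have := Fintype.ofFinite P
  have := Fintype.ofFinite Q
  obtain ⟨c, hc⟩ : ∃ c, c = 10 ^ 8 * A ^ 2 := ⟨_, rfl⟩
  rw [← hc] at h0 h2 h1 hk
  have hA2' : 1 ≤ A ^ 2 := Nat.one_le_pow _ _ hApos
  have hc8 : 10 ^ 8 ≤ c := by rw [hc]; exact Nat.le_mul_of_pos_right _ hA2'
  have hs1 : 1 ≤ s := by omega
  have hs3 : 1 ≤ s ^ 3 := Nat.one_le_pow _ _ hs1
  obtain ⟨k0, hk0⟩ : ∃ k0, k0 = D.Kh * D.r := ⟨_, rfl⟩
  rw [← hk0] at h0 h1
  have hcs3 : 1 ≤ c * s ^ 3 := Nat.one_le_iff_ne_zero.2 (by positivity)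
  have hk0pos : 1 ≤ k0 := hcs3.trans h0
  have hk21 : k2 + 1 ≤ k1 := by
    refine le_trans ?_ h1
    refine Nat.le_mul_of_pos_left _ ?_
    exact Nat.mul_pos hcs3 hk0pos
  have hcs : c ≤ c * s := Nat.le_mul_of_pos_right _ hs1
  -- conditions on k
  have hk6s : 10 ^ 6 * (k1 + 1) * (8 * s + 1) ≤ k := by
    refine le_trans ?_ hk
    calc 10 ^ 6 * (k1 + 1) * (8 * s + 1) ≤ 10 ^ 6 * (k1 + 1) * (9 * s) :=
          Nat.mul_le_mul_left _ (by omega)
      _ = 9 * 10 ^ 6 * s * (k1 + 1) := by ring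
      _ ≤ c * s * (k1 + 1) := by
          refine Nat.mul_le_mul_right _ (Nat.mul_le_mul_right _ ?_)
          exact le_trans (by norm_num) hc8
  have hk6 : 10 ^ 6 * (k1 + 1) ≤ k := by
    refine le_trans ?_ hk6s
    exact Nat.le_mul_of_pos_right _ (by omega)
  have hk2k : k2 ≤ k := by
    have : k1 + 1 ≤ 10 ^ 6 * (k1 + 1) := Nat.le_mul_of_pos_left _ (by norm_num)
    omega
  have hk100 : 100 * (k1 + 1) ≤ k := by
    refine le_trans ?_ hk6
    exact Nat.mul_le_mul_right _ (by norm_num)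
  have hk1' : 1 ≤ k := by omega
  have hk8 : 8 ≤ k := by omega
  have hk100' : 100 ≤ k := by omega
  have hkt : 8 * (8 * s) + 2 ≤ k := by
    refine le_trans ?_ hk6s
    have : 8 * s + 1 ≤ (k1 + 1) * (8 * s + 1) := Nat.le_mul_of_pos_left _ (by omega)
    calc 8 * (8 * s) + 2 ≤ 10 ^ 6 * (8 * s + 1) := by omega
      _ ≤ 10 ^ 6 * ((k1 + 1) * (8 * s + 1)) := Nat.mul_le_mul_left _ this
      _ = _ := by ring
  have ht := pow_bound hs
  -- the sum of the degrees
  obtain ⟨Us, hUs⟩ : ∃ Us : Finset V, ∀ a, a ∈ Us ↔ a ∈ D.U := ⟨D.U.toFinset, fun a => by simp⟩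
  have hUc : D.U.ncard = Us.card := by
    rw [← Set.ncard_coe_finset]
    congr 1
    ext a
    exact (hUs a).symm
  obtain ⟨M, hM⟩ : ∃ M, M = ∑ a ∈ Us, deg D.G a := ⟨_, rfl⟩
  have hMpq : M = Nat.card P + 2 * Nat.card Q := by
    rw [hM, Finset.sum_congr rfl (fun a ha => hD.hub_sum a ((hUs a).1 ha)),
      Finset.sum_add_distrib, Finset.sum_add_distrib,
      card_sum Us D.hub (fun p => (hUs _).2 (hD.hub_U p)),
      card_sum Us D.ha (fun q => (hUs _).2 (hD.ha_U q)),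
      card_sum Us D.hb (fun q => (hUs _).2 (hD.hb_U q))]
    ring
  have hMu : k0 * D.U.ncard ≤ M := by
    rw [hM, hUc, mul_comm, ← smul_eq_mul, ← Finset.sum_const]
    refine Finset.sum_le_sum fun a ha => ?_
    rw [hk0]
    exact (hD.hub_deg a ((hUs a).1 ha)).le
  have hupos : 1 ≤ D.U.ncard := (Set.ncard_pos (Set.toFinite _)).2 hU
  have hMpos : 1 ≤ M := le_trans (Nat.mul_pos hk0pos hupos) hMu
  have hUL : ∀ j, k1 * 2 ^ j * (UL D k1 j).ncard ≤ M := by
    intro j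
    have e1 : (UL D k1 j).ncard = (Us.filter fun a => k1 * 2 ^ j < deg D.G a).card := by
      rw [← Set.ncard_coe_finset]
      congr 1
      ext a
      rw [Finset.mem_coe, Finset.mem_filter, hUs]
      rfl
    rw [e1, hM, mul_comm, ← smul_eq_mul, ← Finset.sum_const]
    calc _ ≤ ∑ a ∈ Us.filter fun a => k1 * 2 ^ j < deg D.G a, deg D.G a :=
          Finset.sum_le_sum fun a ha => (Finset.mem_filter.1 ha).2.le
      _ ≤ _ := Finset.sum_le_sum_of_subset (Finset.filter_subset _ _)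
  -- nb
  have hnb : (Vb D).ncard ≤ 2 * M := by
    have := nb_le hD hB (8 * s) ht hkt
    omega
  -- scales
  have hn1 : 1 ≤ Nat.card V := by
    obtain ⟨a, -⟩ := hU
    have : Nonempty V := ⟨a⟩
    exact Nat.card_pos
  have hlog2 : ∀ (x i : ℕ), x ≤ 2 ^ i * Nat.card V → Nat.log 2 x < s + i := by
    intro x i hx
    have e1 : Nat.log 2 (2 ^ i * Nat.card V) = Nat.log 2 (Nat.card V) + i := by
      clear hx
      induction i with
      | zero => simp
      | succ i ih =>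
        rw [pow_succ, show 2 ^ i * 2 * Nat.card V = 2 ^ i * Nat.card V * 2 by ring,
          Nat.log_mul_base (by norm_num) (by positivity), ih]
        ring
    have e2 := Nat.log_mono_right (b := 2) hx
    omega
  have hsg : ∀ p, Nat.log 2 (sg D k2 p) < s + 1 := fun p => by
    refine hlog2 _ 1 ?_
    have := (sg_le hD hB hk2k hk1' p).2.1
    omega
  have hrho : ∀ p, T5 D k k2 p → Nat.log 2 (rho D k2 p) < s + 11 := fun p hp => by
    refine hlog2 _ 11 ?_
    have h5 := (t5_cap hD hB hk2k hk8 hp).1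
    unfold cap at h5
    omega
  have hwq : ∀ q, Nat.log 2 (D.wq q).length < s := fun q => by
    refine hlog2 _ 0 ?_
    have := hD.wq_le q
    omega
  -- the class X
  obtain ⟨SX, hSX⟩ : ∃ SX : Set P, SX = {p | Lg D k1 k2 p ∧ ¬ T5 D k k2 p} := ⟨_, rfl⟩
  obtain ⟨SY, hSY⟩ : ∃ SY : Set P, SY = {p | T5 D k k2 p ∧ Lg2 D k1 k2 p} := ⟨_, rfl⟩
  obtain ⟨SA, hSA⟩ : ∃ SA : Set P, SA = {p | Lg D k1 k2 p ∧ (¬ T5 D k k2 p ∨ Lg2 D k1 k2 p)} :=
    ⟨_, rfl⟩
  obtain ⟨SL, hSL⟩ : ∃ SL : Set P, SL = {p | Lg D k1 k2 p} := ⟨_, rfl⟩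
  obtain ⟨SZ, hSZ⟩ : ∃ SZ : Set P, SZ = {p | ¬ Lg D k1 k2 p} := ⟨_, rfl⟩
  have bX : (k2 + 1) * k1 * SX.ncard ≤
      (s + 1) * (A * ((k2 + 1) * (k0 * M + k1 * D.U.ncard) + k1 * (Vb D).ncard)) := by
    have e1 := ncard_le_sum SX (fun p => Nat.log 2 (sg D k2 p)) (s + 1) (fun p _ => hsg p)
    have e2 : ∀ j ∈ Finset.range (s + 1), (k2 + 1) * k1 * {p | p ∈ SX ∧ Nat.log 2 (sg D k2 p) = j}.ncard ≤
        A * ((k2 + 1) * (k0 * M + k1 * D.U.ncard) + k1 * (Vb D).ncard) := by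
      intro j _
      have e3 := hCC V P Q D H e0 X k k1 k2 j hD hDr hB hk2k hk6
      have e4 : {p | p ∈ SX ∧ Nat.log 2 (sg D k2 p) = j} =
          {p | Lg D k1 k2 p ∧ ¬ T5 D k k2 p ∧ Nat.log 2 (sg D k2 p) = j} := by
        ext p
        rw [hSX]
        constructor
        · rintro ⟨⟨a, b⟩, c⟩
          exact ⟨a, b, c⟩
        · rintro ⟨a, b, c⟩
          exact ⟨⟨a, b⟩, c⟩
      rw [e4]
      rw [← hk0] at e3
      have e5 := hUL j
      calc _ = k1 * ((k2 + 1) *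
            {p | Lg D k1 k2 p ∧ ¬ T5 D k k2 p ∧ Nat.log 2 (sg D k2 p) = j}.ncard) := by ring
        _ ≤ k1 * (A1 * ((k2 + 1) * (k0 * 2 ^ j * (UL D k1 j).ncard + D.U.ncard) +
            (Vb D).ncard)) := Nat.mul_le_mul_left _ e3
        _ = A1 * ((k2 + 1) * (k0 * (k1 * 2 ^ j * (UL D k1 j).ncard) + k1 * D.U.ncard) +
            k1 * (Vb D).ncard) := by ring
        _ ≤ A * ((k2 + 1) * (k0 * M + k1 * D.U.ncard) + k1 * (Vb D).ncard) := by
            refine Nat.mul_le_mul hA1 (Nat.add_le_add_right (Nat.mul_le_mul_left _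
              (Nat.add_le_add_right (Nat.mul_le_mul_left _ e5) _)) _)
    calc (k2 + 1) * k1 * SX.ncard ≤ (k2 + 1) * k1 *
          ∑ j ∈ Finset.range (s + 1), {p | p ∈ SX ∧ Nat.log 2 (sg D k2 p) = j}.ncard :=
          Nat.mul_le_mul_left _ e1
      _ = ∑ j ∈ Finset.range (s + 1), (k2 + 1) * k1 * {p | p ∈ SX ∧ Nat.log 2 (sg D k2 p) = j}.ncard :=
          Finset.mul_sum _ _ _
      _ ≤ ∑ j ∈ Finset.range (s + 1),
          A * ((k2 + 1) * (k0 * M + k1 * D.U.ncard) + k1 * (Vb D).ncard) := Finset.sum_le_sum e2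
      _ = _ := by rw [Finset.sum_const, Finset.card_range, smul_eq_mul]
  have bY : (k2 + 1) * k1 * SY.ncard ≤
      (s + 11) * (A * ((k2 + 1) * (k0 * (k2 + 1) * M + k1 * D.U.ncard) + k1 * (Vb D).ncard)) := by
    have e1 := ncard_le_sum SY (fun p => Nat.log 2 (rho D k2 p)) (s + 11)
      (fun p hp => hrho p (by rw [hSY] at hp; exact hp.1))
    have e2 : ∀ j ∈ Finset.range (s + 11), (k2 + 1) * k1 * {p | p ∈ SY ∧ Nat.log 2 (rho D k2 p) = j}.ncard ≤
        A * ((k2 + 1) * (k0 * (k2 + 1) * M + k1 * D.U.ncard) + k1 * (Vb D).ncard) := by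
      intro j _
      have e3 := hCD V P Q D H e0 X k k1 k2 j hD hDr hB hk2k hk6
      have e4 : {p | p ∈ SY ∧ Nat.log 2 (rho D k2 p) = j} =
          {p | T5 D k k2 p ∧ Lg2 D k1 k2 p ∧ Nat.log 2 (rho D k2 p) = j} := by
        ext p
        rw [hSY]
        constructor
        · rintro ⟨⟨a, b⟩, c⟩
          exact ⟨a, b, c⟩
        · rintro ⟨a, b, c⟩
          exact ⟨⟨a, b⟩, c⟩
      rw [e4]
      rw [← hk0] at e3
      have e5 := hUL j
      calc _ = k1 * ((k2 + 1) *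
            {p | T5 D k k2 p ∧ Lg2 D k1 k2 p ∧ Nat.log 2 (rho D k2 p) = j}.ncard) := by ring
        _ ≤ k1 * (A2 * ((k2 + 1) * (k0 * (k2 + 1) * 2 ^ j * (UL D k1 j).ncard + D.U.ncard) +
            (Vb D).ncard)) := Nat.mul_le_mul_left _ e3
        _ = A2 * ((k2 + 1) * (k0 * (k2 + 1) * (k1 * 2 ^ j * (UL D k1 j).ncard) + k1 * D.U.ncard) +
            k1 * (Vb D).ncard) := by ring
        _ ≤ A * ((k2 + 1) * (k0 * (k2 + 1) * M + k1 * D.U.ncard) + k1 * (Vb D).ncard) := by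
            refine Nat.mul_le_mul hA2 (Nat.add_le_add_right (Nat.mul_le_mul_left _
              (Nat.add_le_add_right (Nat.mul_le_mul_left _ e5) _)) _)
    calc (k2 + 1) * k1 * SY.ncard ≤ (k2 + 1) * k1 *
          ∑ j ∈ Finset.range (s + 11), {p | p ∈ SY ∧ Nat.log 2 (rho D k2 p) = j}.ncard :=
          Nat.mul_le_mul_left _ e1
      _ = ∑ j ∈ Finset.range (s + 11),
          (k2 + 1) * k1 * {p | p ∈ SY ∧ Nat.log 2 (rho D k2 p) = j}.ncard := Finset.mul_sum _ _ _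
      _ ≤ ∑ j ∈ Finset.range (s + 11),
          A * ((k2 + 1) * (k0 * (k2 + 1) * M + k1 * D.U.ncard) + k1 * (Vb D).ncard) :=
          Finset.sum_le_sum e2
      _ = _ := by rw [Finset.sum_const, Finset.card_range, smul_eq_mul]
  have bA : SA.ncard ≤ SX.ncard + SY.ncard := by
    refine (Set.ncard_le_ncard (t := SX ∪ SY) ?_ (Set.toFinite _)).trans (Set.ncard_union_le _ _)
    intro p hp
    rw [hSA] at hp
    by_cases h : T5 D k k2 p
    · right
      rw [hSY]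
      exact ⟨h, hp.2.resolve_left (fun h' => h' h)⟩
    · left
      rw [hSX]
      exact ⟨hp.1, h⟩
  have bT : {p | T5 D k k2 p ∧ ¬ Lg2 D k1 k2 p}.ncard ≤ (s + 11) * SA.ncard := by
    have e1 := ncard_le_sum {p | T5 D k k2 p ∧ ¬ Lg2 D k1 k2 p} (fun p => Nat.log 2 (rho D k2 p))
      (s + 11) (fun p hp => hrho p hp.1)
    refine e1.trans ?_
    calc _ ≤ ∑ j ∈ Finset.range (s + 11), SA.ncard := by
          refine Finset.sum_le_sum fun j _ => ?_
          refine Set.ncard_le_ncard_of_injOn (pt1 D) ?_ ?_ (Set.toFinite _)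
          · rintro p ⟨⟨h5, h6⟩, -⟩
            rw [hSA]
            exact t5_A hD hB hk2k hk100 h5 h6
          · rintro p ⟨⟨h5, h6⟩, h7⟩ p' ⟨⟨h5', h6'⟩, h7'⟩ h8
            exact t5_inj hD hB hk2k hk100' h5 h5' (h7.trans h7'.symm) h8
      _ = _ := by rw [Finset.sum_const, Finset.card_range, smul_eq_mul]
  have bL : SL.ncard ≤ (s + 12) * SA.ncard := by
    have e1 : SL.ncard ≤ SA.ncard + {p | T5 D k k2 p ∧ ¬ Lg2 D k1 k2 p}.ncard := by
      refine (Set.ncard_le_ncard (t := SA ∪ {p | T5 D k k2 p ∧ ¬ Lg2 D k1 k2 p}) ?_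
        (Set.toFinite _)).trans (Set.ncard_union_le _ _)
      intro p hp
      rw [hSL] at hp
      by_cases h : ¬ T5 D k k2 p ∨ Lg2 D k1 k2 p
      · left
        rw [hSA]
        exact ⟨hp, h⟩
      · right
        push Not at h
        exact h
    calc SL.ncard ≤ SA.ncard + (s + 11) * SA.ncard := by omega
      _ = _ := by ring
  have bZ : (k2 + 1) * SZ.ncard ≤
      (s + 1) * (A * ((k2 + 1) * (D.U.ncard + SL.ncard) + (Vb D).ncard)) := by
    have e1 := ncard_le_sum SZ (fun p => Nat.log 2 (sg D k2 p)) (s + 1) (fun p _ => hsg p)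
    have e2 : ∀ j ∈ Finset.range (s + 1), (k2 + 1) * {p | p ∈ SZ ∧ Nat.log 2 (sg D k2 p) = j}.ncard ≤
        A * ((k2 + 1) * (D.U.ncard + SL.ncard) + (Vb D).ncard) := by
      intro j _
      have e3 := hSP V P Q D k k1 k2 j (8 * s) hD hB hk2k ht hk6s
      have e4 : {p | p ∈ SZ ∧ Nat.log 2 (sg D k2 p) = j} =
          {p | ¬ Lg D k1 k2 p ∧ Nat.log 2 (sg D k2 p) = j} := by
        rw [hSZ]
        rfl
      rw [e4]
      refine e3.trans ?_
      rw [hSL]
      exact Nat.mul_le_mul_right _ hA3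
    calc (k2 + 1) * SZ.ncard ≤ (k2 + 1) *
          ∑ j ∈ Finset.range (s + 1), {p | p ∈ SZ ∧ Nat.log 2 (sg D k2 p) = j}.ncard :=
          Nat.mul_le_mul_left _ e1
      _ = ∑ j ∈ Finset.range (s + 1), (k2 + 1) * {p | p ∈ SZ ∧ Nat.log 2 (sg D k2 p) = j}.ncard :=
          Finset.mul_sum _ _ _
      _ ≤ ∑ j ∈ Finset.range (s + 1), A * ((k2 + 1) * (D.U.ncard + SL.ncard) + (Vb D).ncard) :=
          Finset.sum_le_sum e2
      _ = _ := by rw [Finset.sum_const, Finset.card_range, smul_eq_mul]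
  have bP : Nat.card P ≤ SL.ncard + SZ.ncard := by
    rw [hSL, hSZ]
    exact card_split _
  have bQ : k1 * Nat.card Q ≤ s * (A * (M + k1 * D.U.ncard)) := by
    have e1 := ncard_le_sum (Set.univ : Set Q) (fun q => Nat.log 2 (D.wq q).length) s
      (fun q _ => hwq q)
    rw [Set.ncard_univ] at e1
    have e2 : ∀ j ∈ Finset.range s, k1 * {q | q ∈ (Set.univ : Set Q) ∧ Nat.log 2 (D.wq q).length = j}.ncard ≤
        A * (M + k1 * D.U.ncard) := by
      intro j _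
      have e3 := hHQ V P Q D H e0 X k k1 k2 j (8 * s) hD hG hU hDr hB ht hk6s
      have e4 : {q | q ∈ (Set.univ : Set Q) ∧ Nat.log 2 (D.wq q).length = j} =
          {q | Nat.log 2 (D.wq q).length = j} := by
        ext q
        simp
      rw [e4]
      have e5 := hUL j
      calc _ ≤ k1 * (A4 * (2 ^ j * (UL D k1 j).ncard + D.U.ncard)) := Nat.mul_le_mul_left _ e3
        _ = A4 * (k1 * 2 ^ j * (UL D k1 j).ncard + k1 * D.U.ncard) := by ring
        _ ≤ A * (M + k1 * D.U.ncard) :=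
            Nat.mul_le_mul hA4 (Nat.add_le_add_right e5 _)
    calc k1 * Nat.card Q ≤ k1 * ∑ j ∈ Finset.range s,
          {q | q ∈ (Set.univ : Set Q) ∧ Nat.log 2 (D.wq q).length = j}.ncard :=
          Nat.mul_le_mul_left _ e1
      _ = ∑ j ∈ Finset.range s,
          k1 * {q | q ∈ (Set.univ : Set Q) ∧ Nat.log 2 (D.wq q).length = j}.ncard :=
          Finset.mul_sum _ _ _
      _ ≤ ∑ j ∈ Finset.range s, A * (M + k1 * D.U.ncard) := Finset.sum_le_sum e2
      _ = _ := by rw [Finset.sum_const, Finset.card_range, smul_eq_mul]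
  have hc' : 3000 * A ^ 2 ≤ c := by
    rw [hc]
    exact Nat.mul_le_mul_right _ (by norm_num)
  have h2' : c * s ^ 3 ≤ k2 + 1 := h2.trans (Nat.le_succ _)
  -- reals
  refine numeric (A : ℝ) s k0 k1 ((k2 + 1 : ℕ) : ℝ) M D.U.ncard (Vb D).ncard SX.ncard SY.ncard
    SA.ncard SL.ncard SZ.ncard (Nat.card P) (Nat.card Q) c ?_ ?_ ?_ ?_ ?_ ?_ ?_ ?_ ?_ ?_ ?_ ?_ ?_ ?_
    ?_ ?_ ?_ ?_ ?_ ?_
  · exact_mod_cast hApos
  · exact_mod_cast hs1
  · exact_mod_cast hMpos
  · positivity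
  · positivity
  · positivity
  · exact_mod_cast hMu
  · exact_mod_cast hnb
  · exact_mod_cast hc'
  · exact_mod_cast h0
  · exact_mod_cast h2'
  · exact_mod_cast h1
  · exact_mod_cast bX
  · exact_mod_cast bY
  · exact_mod_cast bA
  · exact_mod_cast bL
  · exact_mod_cast bZ
  · exact_mod_cast bP
  · exact_mod_cast bQ
  · exact_mod_cast hMpq

end Pool.Agent.Helper72.PL
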